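import Pool.Agent.H27.HB.TA
import Pool.Agent.H27.HB.TD

/-!
# The row SPL: dichotomy for the unit ball
-/

set_option autoImplicit false

namespace Pool.Agent.H80.HB

open MeasureTheory Set Filter Topology Pool.Agent.H80.HS Pool.Agent.H93.HQ Pool.Agent.H27.HB
open scoped ContDiff ENNReal

/-! ### Real numbers -/

theorem ps_rel {n : ℕ} {p : ℝ} (hp : 1 < p) (hQ : p < 2 * n + 2) :
    0 < ps n p ∧ 0 < th n p ∧ th n p < 1 ∧ th n p * ps n p = p ∧
      th n p + p / (2 * n + 2) = 1 ∧ p < ps n p := by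
  have h1 : 0 < 2 * (n : ℝ) + 2 - p := by linarith
  have h2 : (0 : ℝ) < 2 * (n : ℝ) + 2 := by positivity
  refine ⟨?_, ?_, ?_, ?_, ?_, ?_⟩
  · unfold ps; positivity
  · unfold th; positivity
  · unfold th
    rw [div_lt_one h2]
    linarith
  · unfold th ps
    have h3 : (2 * (n : ℝ) + 2 - p) ≠ 0 := h1.ne'
    have h4 : (2 * (n : ℝ) + 2) ≠ 0 := h2.ne'
    rw [div_mul_div_comm, div_eq_iff (mul_ne_zero h4 h3)]
    ring
  · unfold th
    field_simp
    ring
  · unfold ps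
    rw [lt_div_iff₀ h1]
    nlinarith

theorem ps_mono {n : ℕ} {p b : ℝ} (hpb : p ≤ b) (hQ : b < 2 * n + 2) :
    ps n p ≤ ps n b := by
  unfold ps
  have h1 : 0 < 2 * (n : ℝ) + 2 - b := by linarith
  have h3 : 0 < 2 * (n : ℝ) + 2 - p := by linarith
  have h2 : (0 : ℝ) < 2 * (n : ℝ) + 2 := by positivity
  rw [div_le_div_iff₀ h3 h1]
  nlinarith [mul_le_mul_of_nonneg_left hpb h2.le]

theorem add_rpow_le {x D p : ℝ} (hx : 0 ≤ x) (hD : 0 ≤ D) (hp : 1 ≤ p) :
    (x + D) ^ p ≤ x ^ p + p * D * (x + D) ^ (p - 1) := by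
  rcases (add_nonneg hx hD).eq_or_lt with h | h
  · have hx0 : x = 0 := by linarith
    have hD0 : D = 0 := by linarith
    rw [hx0, hD0]
    simp
  · have hb := one_add_mul_self_le_rpow_one_add (s := -D / (x + D)) (p := p) (by
      rw [le_div_iff₀ h]; linarith) hp
    have h1 : 1 + -D / (x + D) = x / (x + D) := by field_simp; ring
    rw [h1, Real.div_rpow hx h.le] at hb
    have h2 : (0 : ℝ) < (x + D) ^ p := Real.rpow_pos_of_pos h p
    have h3 : (x + D) ^ (p - 1) = (x + D) ^ p / (x + D) := by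
      rw [Real.rpow_sub_one h.ne']
    rw [h3]
    have h4 : (1 + p * (-D / (x + D))) * (x + D) ^ p ≤ x ^ p := by
      rwa [le_div_iff₀ h2] at hb
    have h5 : (1 + p * (-D / (x + D))) * (x + D) ^ p =
        (x + D) ^ p - p * D * ((x + D) ^ p / (x + D)) := by
      field_simp
      ring
    linarith

theorem pow_gain {μ θ η κ : ℝ} (hη : 0 < η) (hμ : η ≤ μ) (hμ2 : μ ≤ 1 / 2) (hθ : θ + κ = 1)
    (hκ : 0 < κ) : μ + η * (2 ^ κ - 1) ≤ μ ^ θ := by
  have hμ0 : 0 < μ := hη.trans_le hμ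
  have h1 : μ ^ θ = μ * μ ^ (-κ) := by
    have : θ = 1 + -κ := by linarith
    rw [this, Real.rpow_add hμ0, Real.rpow_one]
  have h2 : (2 : ℝ) ^ κ ≤ μ ^ (-κ) := by
    rw [Real.rpow_neg hμ0.le, ← Real.inv_rpow hμ0.le]
    refine Real.rpow_le_rpow (by norm_num) ?_ hκ.le
    rw [le_inv_comm₀ (by norm_num) hμ0]
    linarith
  have h3 : (1 : ℝ) ≤ 2 ^ κ := Real.one_le_rpow (by norm_num) hκ.le
  rw [h1]
  nlinarith

/-- the two masses -/
theorem two_masses {m1 m2 η θ κ : ℝ} (hη : 0 < η) (h1 : η < m1) (h2 : η < m2) (hs : m1 + m2 ≤ 1)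
    (hθ : θ + κ = 1) (hκ : 0 < κ) :
    m1 + m2 + η * (2 ^ κ - 1) ≤ m1 ^ θ + m2 ^ θ := by
  have hle : ∀ x : ℝ, 0 < x → x ≤ 1 → x ≤ x ^ θ := by
    intro x hx hx1
    conv_lhs => rw [← Real.rpow_one x]
    exact Real.rpow_le_rpow_of_exponent_ge hx hx1 (by linarith)
  rcases le_total m1 m2 with h | h
  · have ha := pow_gain hη h1.le (by linarith) hθ hκ
    have hb := hle m2 (by linarith) (by linarith)
    linarith
  · have ha := pow_gain hη h2.le (by linarith) hθ hκ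
    have hb := hle m1 (by linarith) (by linarith)
    linarith

/-! ### The dilated cutoff functions -/

/-- the dilation as a linear map -/
noncomputable def dilL (n : ℕ) (r : ℝ) : H n →L[ℝ] H n :=
  (r • ContinuousLinearMap.fst ℝ (V n) (V n × ℝ)).prod
    ((r • (ContinuousLinearMap.fst ℝ (V n) ℝ).comp (ContinuousLinearMap.snd ℝ (V n) (V n × ℝ))).prod
      (r ^ 2 • (ContinuousLinearMap.snd ℝ (V n) ℝ).comp
        (ContinuousLinearMap.snd ℝ (V n) (V n × ℝ))))

theorem dilL_apply (n : ℕ) (r : ℝ) (z : H n) : dilL n r z = dil r z := rfl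

theorem hg_dil {n : ℕ} (r : ℝ) (χ : H n → ℝ) (hχ : ContDiff ℝ ∞ χ) (z : H n) :
    hg (fun x => χ (dil r x)) z = r • hg χ (dil r z) := by
  have hd : HasFDerivAt (fun x : H n => χ (dil r x))
      ((fderiv ℝ χ (dil r z)).comp (dilL n r)) z := by
    have h1 : HasFDerivAt χ (fderiv ℝ χ (dil r z)) (dilL n r z) :=
      (hχ.differentiable (by norm_num)).differentiableAt.hasFDerivAt
    exact h1.comp z (dilL n r).hasFDerivAt
  unfold hg
  ext i
  rw [PiLp.smul_apply]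
  cases i with
  | inl j =>
    change X (fun x => χ (dil r x)) j z = r • X χ j (dil r z)
    unfold X
    rw [hd.fderiv, ContinuousLinearMap.comp_apply, dilL_apply, ← map_smul]
    congr 1
    unfold dil
    refine Prod.ext rfl (Prod.ext ?_ ?_)
    · simp
    · simp only [Prod.smul_snd, smul_eq_mul, PiLp.smul_apply]
      ring
  | inr j =>
    change Y (fun x => χ (dil r x)) j z = r • Y χ j (dil r z)
    unfold Y
    rw [hd.fderiv, ContinuousLinearMap.comp_apply, dilL_apply, ← map_smul]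
    congr 1
    unfold dil
    refine Prod.ext ?_ (Prod.ext rfl ?_)
    · simp
    · simp only [Prod.smul_snd, smul_eq_mul, PiLp.smul_apply]
      ring

theorem hg_zero_of {n : ℕ} {u : H n → ℝ} {z : H n} (h : fderiv ℝ u z = 0) : hg u z = 0 := by
  unfold hg
  ext i
  cases i with
  | inl j =>
    change X u j z = 0
    unfold X
    rw [h]
    rfl
  | inr j =>
    change Y u j z = 0
    unfold Y
    rw [h]
    rfl

/-- the dilation as a homeomorphism -/
noncomputable def dilH (n : ℕ) {r : ℝ} (hr : 0 < r) : H n ≃ₜ H n where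
  toFun := dil r
  invFun := dil r⁻¹
  left_inv := fun z => dil_inv_dil hr.ne' z
  right_inv := fun z => dil_dil_inv hr.ne' z
  continuous_toFun := continuous_dil r
  continuous_invFun := continuous_dil r⁻¹

theorem tst_dil {n : ℕ} {r : ℝ} (hr : 0 < r) {χ : H n → ℝ} (hχ : Tst χ) :
    Tst (fun z => χ (dil r z)) := by
  refine ⟨hχ.1.comp (dilL n r).contDiff, ?_⟩
  exact hχ.2.comp_homeomorph (dilH n hr)

theorem tst_mul {n : ℕ} {u φ : H n → ℝ} (hu : ContDiff ℝ ∞ u) (hφ : Tst φ) :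
    Tst (fun z => u z * φ z) := ⟨hu.mul hφ.1, hφ.2.mul_left⟩

/-! ### Integrals -/

theorem int_rpow {n : ℕ} {F : Type} [NormedAddCommGroup F] {g : H n → F} (hg' : Continuous g)
    (hc : HasCompactSupport g) {q : ℝ} (hq : 0 < q) :
    Continuous (fun z => ‖g z‖ ^ q) ∧ HasCompactSupport (fun z => ‖g z‖ ^ q) ∧
      Integrable (fun z => ‖g z‖ ^ q) := by
  have h1 : Continuous (fun z => ‖g z‖ ^ q) := hg'.norm.rpow_const fun _ => Or.inr hq.le
  have h2 : HasCompactSupport (fun z => ‖g z‖ ^ q) :=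
    hc.comp_left (g := fun v : F => ‖v‖ ^ q) (by simp [Real.zero_rpow hq.ne'])
  exact ⟨h1, h2, h1.integrable_of_hasCompactSupport h2⟩

theorem en_nonneg {n : ℕ} (p : ℝ) (g : H n → G n) : 0 ≤ en p g :=
  integral_nonneg fun _ => Real.rpow_nonneg (norm_nonneg _) _

/-- the `L^p` norm -/
theorem nrm_eq {n : ℕ} {g : H n → G n} (hg' : Continuous g) (hc : HasCompactSupport g) {p : ℝ}
    (hp : 1 < p) : (eLpNorm g (ENNReal.ofReal p) volume).toReal = en p g ^ p⁻¹ := by
  have hm : MemLp g (ENNReal.ofReal p) volume := hg'.memLp_of_hasCompactSupport hc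
  have h0 : ENNReal.ofReal p ≠ 0 := by
    rw [Ne, ENNReal.ofReal_eq_zero]; linarith
  have hpr : (ENNReal.ofReal p).toReal = p := ENNReal.toReal_ofReal (by linarith)
  rw [hm.eLpNorm_eq_integral_rpow_norm h0 ENNReal.ofReal_ne_top, hpr,
    ENNReal.toReal_ofReal (Real.rpow_nonneg (by
      exact integral_nonneg fun _ => Real.rpow_nonneg (norm_nonneg _) _) _)]
  rfl

theorem mink {n : ℕ} {f g : H n → G n} (hf : Continuous f) (hfc : HasCompactSupport f)
    (hg' : Continuous g) (hgc : HasCompactSupport g) {p : ℝ} (hp : 1 < p) :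
    en p (fun z => f z + g z) ^ p⁻¹ ≤ en p f ^ p⁻¹ + en p g ^ p⁻¹ := by
  have e0 := nrm_eq (hf.add hg') (hfc.add hgc) hp
  change _ = en p (fun z => f z + g z) ^ p⁻¹ at e0
  rw [← nrm_eq hf hfc hp, ← nrm_eq hg' hgc hp, ← e0]
  have hmf : MemLp f (ENNReal.ofReal p) volume := hf.memLp_of_hasCompactSupport hfc
  have hmg : MemLp g (ENNReal.ofReal p) volume := hg'.memLp_of_hasCompactSupport hgc
  rw [← ENNReal.toReal_add hmf.eLpNorm_ne_top hmg.eLpNorm_ne_top]
  refine ENNReal.toReal_mono (ENNReal.add_ne_top.2 ⟨hmf.eLpNorm_ne_top, hmg.eLpNorm_ne_top⟩) ?_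
  exact eLpNorm_add_le hmf.1 hmg.1 (by
    rw [← ENNReal.ofReal_one]
    exact ENNReal.ofReal_le_ofReal hp.le)

/-- the Hölder inequality -/
theorem holder {n : ℕ} {φ : H n → ℝ} (hφ : Continuous φ) (hφc : HasCompactSupport φ)
    {g : H n → G n} (hg' : Continuous g) (hgc : HasCompactSupport g) {B : Set (H n)}
    (hB : MeasurableSet B) (hgB : ∀ z, z ∉ B → g z = 0) {p : ℝ} (hp : 1 < p)
    (hQ : p < 2 * n + 2) :
    en p (fun z => φ z • g z) ≤ (∫ z in B, |φ z| ^ ps n p) ^ th n p *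
      (∫ z, ‖g z‖ ^ (2 * (n : ℝ) + 2)) ^ (p / (2 * n + 2)) := by
  obtain ⟨hq0, hth0, hth1, hrel, hsum, hpq⟩ := ps_rel hp hQ
  have hQ0 : (0 : ℝ) < 2 * (n : ℝ) + 2 := by positivity
  have hp0 : 0 < p := by linarith
  set s : ℝ := (th n p)⁻¹ with hs
  set s' : ℝ := (2 * (n : ℝ) + 2) / p with hs'
  have hconj : s.HolderConjugate s' := by
    rw [Real.holderConjugate_iff]
    refine ⟨?_, ?_⟩
    · rw [hs]; exact (one_lt_inv₀ hth0).2 hth1
    · rw [hs, hs', inv_inv, inv_div]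
      exact hsum
  obtain ⟨hc1, hc2, hi1⟩ := int_rpow hφ hφc hp0
  obtain ⟨hc3, hc4, hi3⟩ := int_rpow hg' hgc hp0
  have hF : MemLp (B.indicator fun z => ‖φ z‖ ^ p) (ENNReal.ofReal s) volume :=
    (hc1.memLp_of_hasCompactSupport hc2).indicator hB
  have hG : MemLp (fun z => ‖g z‖ ^ p) (ENNReal.ofReal s') volume :=
    hc3.memLp_of_hasCompactSupport hc4
  have h := integral_mul_le_Lp_mul_Lq_of_nonneg (μ := (volume : Measure (H n))) hconj
    (f := B.indicator fun z => ‖φ z‖ ^ p) (g := fun z => ‖g z‖ ^ p)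
    (Eventually.of_forall fun z => Set.indicator_nonneg (fun _ _ => Real.rpow_nonneg
      (norm_nonneg _) _) z)
    (Eventually.of_forall fun z => Real.rpow_nonneg (norm_nonneg _) _) hF hG
  have e1 : ∫ z, (B.indicator fun z => ‖φ z‖ ^ p) z * ‖g z‖ ^ p = en p (fun z => φ z • g z) := by
    unfold en
    refine integral_congr_ae (Eventually.of_forall fun z => ?_)
    simp only
    by_cases hz : z ∈ B
    · rw [Set.indicator_of_mem hz, norm_smul, Real.mul_rpow (norm_nonneg _) (norm_nonneg _)]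
    · rw [Set.indicator_of_notMem hz, hgB z hz, smul_zero, norm_zero, zero_mul,
        Real.zero_rpow hp0.ne']
  have e2 : ∫ z, (B.indicator (fun z => ‖φ z‖ ^ p) z) ^ s = ∫ z in B, |φ z| ^ ps n p := by
    rw [← integral_indicator hB]
    refine integral_congr_ae (Eventually.of_forall fun z => ?_)
    simp only
    by_cases hz : z ∈ B
    · rw [Set.indicator_of_mem hz, Set.indicator_of_mem hz, ← Real.rpow_mul (norm_nonneg _),
        Real.norm_eq_abs]
      congr 1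
      rw [hs, mul_inv_eq_iff_eq_mul₀ hth0.ne', mul_comm]
      exact hrel.symm
    · rw [Set.indicator_of_notMem hz, Set.indicator_of_notMem hz, Real.zero_rpow
        (inv_ne_zero hth0.ne')]
  have e3 : ∫ z, (‖g z‖ ^ p) ^ s' = ∫ z, ‖g z‖ ^ (2 * (n : ℝ) + 2) := by
    refine integral_congr_ae (Eventually.of_forall fun z => ?_)
    simp only
    rw [← Real.rpow_mul (norm_nonneg _), hs', mul_div_cancel₀ _ hp0.ne']
  rw [e1, e2, e3] at h
  refine h.trans (le_of_eq ?_)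
  congr 2
  · rw [hs, one_div, inv_inv]
  · rw [hs', one_div, inv_div]


/-! ### The cutoff -/

/-- properties of the dilated cutoff function -/
theorem cut_props {n : ℕ} (hn : 1 ≤ n) (hACV : T_ACV) {χ : H n → ℝ} (hT : Tst χ)
    (h01 : ∀ z, 0 ≤ χ z ∧ χ z ≤ 1) (h1 : ∀ z, N z ≤ 1 → χ z = 1) (h0 : ∀ z, 2 ≤ N z → χ z = 0)
    (i : ℕ) : ∃ ψ : H n → ℝ, Tst ψ ∧ (∀ z, 0 ≤ ψ z ∧ ψ z ≤ 1) ∧ (∀ z, N z ≤ 2 ^ i → ψ z = 1) ∧
      (∀ z, 2 ^ (i + 1) ≤ N z → ψ z = 0) ∧
      (∀ z, z ∉ {z : H n | 2 ^ i < N z ∧ N z < 2 ^ (i + 1)} → hg ψ z = 0) ∧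
      ∫ z, ‖hg ψ z‖ ^ (2 * (n : ℝ) + 2) = ∫ z, ‖hg χ z‖ ^ (2 * (n : ℝ) + 2) := by
  set r : ℝ := (2 ^ i)⁻¹ with hr
  have h2i : (0 : ℝ) < 2 ^ i := by positivity
  have hr0 : 0 < r := by rw [hr]; positivity
  have hN : ∀ z : H n, N (dil r z) = r * N z := fun z => N_dil hr0.le z
  have k1 : ∀ z, N z ≤ 2 ^ i → χ (dil r z) = 1 := by
    intro z hz
    apply h1
    rw [hN, hr, inv_mul_le_iff₀ h2i, mul_one]
    exact hz
  have k2 : ∀ z, 2 ^ (i + 1) ≤ N z → χ (dil r z) = 0 := by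
    intro z hz
    apply h0
    rw [hN, hr, le_inv_mul_iff₀ h2i, ← pow_succ]
    exact hz
  have hfd : Differentiable ℝ χ := hT.1.differentiable (by norm_num)
  refine ⟨fun z => χ (dil r z), tst_dil hr0 hT, fun z => h01 _, k1, k2, ?_, ?_⟩
  · intro z hz
    apply hg_zero_of
    rw [Set.mem_ofPred_eq, not_and_or, not_lt, not_lt] at hz
    rcases hz with hz | hz
    · refine IsLocalMax.fderiv_eq_zero (Filter.Eventually.of_forall fun w => ?_)
      simp only
      rw [k1 z hz]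
      exact (h01 _).2
    · refine IsLocalMin.fderiv_eq_zero (Filter.Eventually.of_forall fun w => ?_)
      simp only
      rw [k2 z hz]
      exact (h01 _).1
  · have hA := (hACV n hn (3 / 2) (by norm_num) (by
      have : (1 : ℝ) ≤ n := by exact_mod_cast hn
      linarith) 0 r hr0).1 (fun w => ‖hg χ w‖ ^ (2 * (n : ℝ) + 2))
    have hmz : ∀ z : H n, mul 0 z = z := fun z => zero_mul' z
    simp only [hmz] at hA
    rw [← hA, ← integral_const_mul]
    refine integral_congr_ae (Eventually.of_forall fun z => ?_)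
    simp only
    rw [hg_dil r χ hT.1, norm_smul, Real.mul_rpow (norm_nonneg _) (norm_nonneg _),
      Real.norm_of_nonneg hr0.le]
    congr 1
    rw [← Real.rpow_natCast]
    congr 1
    push_cast
    ring

/-- one of `m` disjoint annuli carries at most `1 / m` of the mass -/
theorem pigeon {n : ℕ} {f : H n → ℝ} (hf : Integrable f) (hf0 : ∀ z, 0 ≤ f z)
    (h1 : ∫ z, f z = 1) (m : ℕ) (hm : 1 ≤ m) :
    ∃ i < m, ∫ z in {z : H n | 2 ^ i < N z ∧ N z < 2 ^ (i + 1)}, f z ≤ 1 / m := by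
  set B : ℕ → Set (H n) := fun i => {z : H n | 2 ^ i < N z ∧ N z < 2 ^ (i + 1)} with hB
  have hBm : ∀ i, MeasurableSet (B i) := fun i =>
    ((isOpen_lt continuous_const continuous_N).inter
      (isOpen_lt continuous_N continuous_const)).measurableSet
  have hdis : ∀ i j, i < j → Disjoint (B i) (B j) := by
    intro i j hij
    rw [Set.disjoint_left]
    rintro z ⟨_, h2⟩ ⟨h3, _⟩
    have : (2 : ℝ) ^ (i + 1) ≤ 2 ^ j := pow_le_pow_right₀ (by norm_num) hij
    linarith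
  have hsum : ∑ i ∈ Finset.range m, ∫ z in B i, f z ≤ 1 := by
    rw [← integral_biUnion_finset (Finset.range m) (fun i _ => hBm i) (by
      intro i _ j _ hij
      rcases lt_or_gt_of_ne hij with h | h
      · exact hdis i j h
      · exact (hdis j i h).symm) (fun i _ => hf.integrableOn), ← h1]
    exact setIntegral_le_integral hf (Eventually.of_forall hf0)
  have hm0 : (0 : ℝ) < m := by exact_mod_cast hm
  obtain ⟨i, hi, hle⟩ := Finset.exists_le_of_sum_le (s := Finset.range m)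
    (f := fun i => ∫ z in B i, f z) (g := fun _ => (1 : ℝ) / m)
    (Finset.nonempty_range_iff.2 (by omega)) (by
      rw [Finset.sum_const, Finset.card_range, nsmul_eq_mul, mul_one_div_cancel hm0.ne']
      exact hsum)
  exact ⟨i, Finset.mem_range.1 hi, hle⟩

/-- the total mass -/
theorem split_mass {n : ℕ} {f : H n → ℝ} (hf : Integrable f) (i : ℕ) :
    (∫ z in {z : H n | N z ≤ 2 ^ i}, f z) +
      (∫ z in {z : H n | 2 ^ i < N z ∧ N z < 2 ^ (i + 1)}, f z) +
      (∫ z in {z : H n | 2 ^ (i + 1) ≤ N z}, f z) = ∫ z, f z := by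
  have m1 : MeasurableSet {z : H n | N z ≤ 2 ^ i} :=
    (isClosed_le continuous_N continuous_const).measurableSet
  have m3 : MeasurableSet {z : H n | 2 ^ (i + 1) ≤ N z} :=
    (isClosed_le continuous_const continuous_N).measurableSet
  have hle : (2 : ℝ) ^ i ≤ 2 ^ (i + 1) := pow_le_pow_right₀ (by norm_num) (by omega)
  rw [← integral_add_compl m1 hf, add_assoc]
  congr 1
  have : {z : H n | N z ≤ 2 ^ i}ᶜ = {z : H n | 2 ^ i < N z ∧ N z < 2 ^ (i + 1)} ∪
      {z : H n | 2 ^ (i + 1) ≤ N z} := by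
    ext z
    simp only [Set.mem_compl_iff, Set.mem_ofPred_eq, Set.mem_union, not_le]
    constructor
    · intro h
      rcases lt_or_ge (N z) (2 ^ (i + 1)) with h' | h'
      · exact Or.inl ⟨h, h'⟩
      · exact Or.inr h'
    · rintro (h | h)
      · exact h.1
      · exact lt_of_lt_of_le (pow_lt_pow_right₀ (by norm_num) (by omega)) h
  rw [this, setIntegral_union (by
    rw [Set.disjoint_left]
    rintro z ⟨_, h2⟩ h3
    exact absurd h2 (not_lt.2 h3)) m3 hf.integrableOn hf.integrableOn]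

/-- the gradients of the two parts -/
theorem grads {n : ℕ} (hHGA : T_HGA) {φ ψ : H n → ℝ} (hφT : Tst φ) (hψ : Tst ψ) :
    hg (fun x => ψ x * φ x) = (fun z => ψ z • hg φ z + φ z • hg ψ z) ∧
    hg (fun x => (1 - ψ x) * φ x) =
      fun z => (1 - ψ z) • hg φ z + (-1 : ℝ) • (φ z • hg ψ z) := by
  have dφ : Differentiable ℝ φ := hφT.1.differentiable (by norm_num)
  have dψ : Differentiable ℝ ψ := hψ.1.differentiable (by norm_num)
  have hg1 : hg (fun x => ψ x * φ x) = fun z => ψ z • hg φ z + φ z • hg ψ z := by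
    funext z
    exact (hHGA n ψ φ z (dψ z) (dφ z)).2.1
  refine ⟨hg1, ?_⟩
  funext z
  have h := (hHGA n φ (fun x => ψ x * φ x) z (dφ z) ((dψ z).mul (dφ z))).1 1 (-1)
  have e : (fun x => 1 * φ x + -1 * (ψ x * φ x)) = fun x => (1 - ψ x) * φ x := by
    funext x
    ring
  rw [e] at h
  rw [h, hg1]
  simp only
  rw [smul_add, smul_smul, sub_smul, one_smul, neg_one_mul, neg_smul]
  abel

theorem pw_le {t p : ℝ} (ha : 0 ≤ t) (hb : t ≤ 1) (hp : 1 < p) : t ^ p ≤ t := by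
  rcases ha.eq_or_lt with h | h
  · rw [← h, Real.zero_rpow (by linarith)]
  · conv_rhs => rw [← Real.rpow_one t]
    exact Real.rpow_le_rpow_of_exponent_ge h hb hp.le

/-- the energies of the two parts -/
theorem two_energies {n : ℕ} {ψ : H n → ℝ} {g : H n → G n} (hψc : Continuous ψ)
    (h01 : ∀ z, 0 ≤ ψ z ∧ ψ z ≤ 1) (hg' : Continuous g) (hgc : HasCompactSupport g) {p : ℝ}
    (hp : 1 < p) : en p (fun z => ψ z • g z) + en p (fun z => (1 - ψ z) • g z) ≤ en p g := by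
  have hp0 : 0 < p := by linarith
  have c1 : Continuous (fun z => ψ z • g z) := hψc.smul hg'
  have c1' : HasCompactSupport (fun z => ψ z • g z) :=
    HasCompactSupport.smul_left (f := ψ) hgc
  have c2 : Continuous (fun z => (1 - ψ z) • g z) := (continuous_const.sub hψc).smul hg'
  have c2' : HasCompactSupport (fun z => (1 - ψ z) • g z) :=
    HasCompactSupport.smul_left (f := fun z => 1 - ψ z) hgc
  have hi1 := (int_rpow c1 c1' hp0).2.2
  have hi2 := (int_rpow c2 c2' hp0).2.2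
  have hi3 := (int_rpow hg' hgc hp0).2.2
  unfold en
  rw [← integral_add hi1 hi2]
  refine integral_mono (hi1.add hi2) hi3 fun z => ?_
  simp only
  obtain ⟨ha, hb⟩ := h01 z
  rw [norm_smul, norm_smul, Real.mul_rpow (norm_nonneg _) (norm_nonneg _),
    Real.mul_rpow (norm_nonneg _) (norm_nonneg _), Real.norm_of_nonneg ha,
    Real.norm_of_nonneg (by linarith), ← add_mul]
  have h5 := pw_le ha hb hp
  have h6 := pw_le (by linarith : 0 ≤ 1 - ψ z) (by linarith) hp
  have h7 : 0 ≤ ‖g z‖ ^ p := Real.rpow_nonneg (norm_nonneg _) _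
  nlinarith

/-- the error -/
theorem err_le {n : ℕ} {p K : ℝ} (hp : 1 < p) (hQ : p < 2 * n + 2) {φ : H n → ℝ} {g : H n → G n}
    (hφc : Continuous φ) (hφs : HasCompactSupport φ) (hgψ : Continuous g)
    (hgψc : HasCompactSupport g) {B : Set (H n)} (hmB : MeasurableSet B) (m : ℕ)
    (hg0 : ∀ z, z ∉ B → g z = 0) (hK : ∫ z, ‖g z‖ ^ (2 * (n : ℝ) + 2) = K)
    (hmass : ∫ z in B, |φ z| ^ ps n p ≤ 1 / m) :
    en p (fun z => φ z • g z) ^ p⁻¹ ≤
      (1 / (m : ℝ)) ^ (ps n p)⁻¹ * K ^ (2 * (n : ℝ) + 2)⁻¹ := by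
  obtain ⟨hq0, hth0, hth1, hrel, hsum, hpq⟩ := ps_rel hp hQ
  have hp0 : 0 < p := by linarith
  have hQ0 : (0 : ℝ) < 2 * (n : ℝ) + 2 := by positivity
  have h := holder hφc hφs hgψ hgψc hmB hg0 hp hQ
  rw [hK] at h
  have hK0 : 0 ≤ K := by
    rw [← hK]
    exact integral_nonneg fun _ => Real.rpow_nonneg (norm_nonneg _) _
  have hmi : 0 ≤ ∫ z in B, |φ z| ^ ps n p :=
    integral_nonneg fun _ => Real.rpow_nonneg (abs_nonneg _) _
  have h8 : en p (fun z => φ z • g z) ≤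
      (1 / (m : ℝ)) ^ th n p * K ^ (p / (2 * (n : ℝ) + 2)) := by
    refine h.trans (mul_le_mul_of_nonneg_right ?_ (Real.rpow_nonneg hK0 _))
    exact Real.rpow_le_rpow hmi hmass hth0.le
  have h9 : en p (fun z => φ z • g z) ^ p⁻¹ ≤
      ((1 / (m : ℝ)) ^ th n p * K ^ (p / (2 * (n : ℝ) + 2))) ^ p⁻¹ :=
    Real.rpow_le_rpow (en_nonneg _ _) h8 (by positivity)
  refine h9.trans (le_of_eq ?_)
  have hm1 : (0 : ℝ) ≤ 1 / m := by positivity
  rw [Real.mul_rpow (Real.rpow_nonneg hm1 _) (Real.rpow_nonneg hK0 _), ← Real.rpow_mul hm1,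
    ← Real.rpow_mul hK0]
  have e1 : th n p * p⁻¹ = (ps n p)⁻¹ := by
    rw [mul_inv_eq_iff_eq_mul₀ hp0.ne', eq_inv_mul_iff_mul_eq₀ hq0.ne', mul_comm]
    exact hrel
  have e2 : p / (2 * (n : ℝ) + 2) * p⁻¹ = (2 * (n : ℝ) + 2)⁻¹ := by
    rw [div_eq_mul_inv, mul_comm p, mul_assoc, mul_inv_cancel₀ hp0.ne', mul_one]
  rw [e1, e2]

theorem en_neg {n : ℕ} (p : ℝ) (g : H n → G n) : en p (fun z => (-1 : ℝ) • g z) = en p g := by
  unfold en
  refine integral_congr_ae (Eventually.of_forall fun z => ?_)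
  simp only
  rw [neg_one_smul, norm_neg]

theorem mink_pow {n : ℕ} {f g : H n → G n} (hf : Continuous f) (hfc : HasCompactSupport f)
    (hg' : Continuous g) (hgc : HasCompactSupport g) {p : ℝ} (hp : 1 < p) :
    en p (fun z => f z + g z) ≤ (en p f ^ p⁻¹ + en p g ^ p⁻¹) ^ p := by
  have hp0 : 0 < p := by linarith
  have h := mink hf hfc hg' hgc hp
  rw [← Real.rpow_inv_rpow (en_nonneg p (fun z => f z + g z)) hp0.ne']
  exact Real.rpow_le_rpow (Real.rpow_nonneg (en_nonneg _ _) _) h hp0.le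

/-- the mass where the cutoff is one -/
theorem mass_le {n : ℕ} {q : ℝ} (hq0 : 0 < q) {u φ : H n → ℝ} (hu : ContDiff ℝ ∞ u) (hφT : Tst φ)
    {A : Set (H n)} (hA : MeasurableSet A) (h1 : ∀ z ∈ A, u z = 1) :
    (∫ z in A, |φ z| ^ q) ≤ ms q (fun z => u z * φ z) := by
  have hT1 := tst_mul hu hφT
  have hi := (int_rpow hT1.1.continuous hT1.2 hq0).2.2
  unfold ms
  refine le_trans (le_of_eq ?_) (setIntegral_le_integral (s := A) hi
    (Eventually.of_forall fun z => by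
      change 0 ≤ |u z * φ z| ^ q
      exact Real.rpow_nonneg (abs_nonneg _) _))
  refine setIntegral_congr_fun hA fun z hz => ?_
  simp only
  rw [h1 z hz, one_mul]

/-- the main estimate -/
theorem main_ineq {n : ℕ} (hn : 1 ≤ n) (hTQ : T_TQ) (hHGA : T_HGA) (hHGC : T_HGC)
    {p S ε K : ℝ} (hp : 1 < p) (hQ : p < 2 * n + 2) (hS : Opt n p S) {φ ψ : H n → ℝ}
    (hφ : Near p S ε φ) (hψ : Tst ψ) (h01 : ∀ z, 0 ≤ ψ z ∧ ψ z ≤ 1) (i m : ℕ)
    (h1 : ∀ z, N z ≤ 2 ^ i → ψ z = 1) (h0 : ∀ z, 2 ^ (i + 1) ≤ N z → ψ z = 0)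
    (hg0 : ∀ z, z ∉ {z : H n | 2 ^ i < N z ∧ N z < 2 ^ (i + 1)} → hg ψ z = 0)
    (hK : ∫ z, ‖hg ψ z‖ ^ (2 * (n : ℝ) + 2) = K)
    (hmass : ∫ z in {z : H n | 2 ^ i < N z ∧ N z < 2 ^ (i + 1)}, |φ z| ^ ps n p ≤ 1 / m) :
    ∃ x y D : ℝ, 0 ≤ x ∧ 0 ≤ y ∧ 0 ≤ D ∧ x ^ p + y ^ p ≤ S + ε ∧
      D ≤ (1 / (m : ℝ)) ^ (ps n p)⁻¹ * K ^ (2 * (n : ℝ) + 2)⁻¹ ∧
      S * ((∫ z in {z : H n | N z ≤ 2 ^ i}, |φ z| ^ ps n p) ^ th n p +
        (∫ z in {z : H n | 2 ^ (i + 1) ≤ N z}, |φ z| ^ ps n p) ^ th n p) ≤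
        (x + D) ^ p + (y + D) ^ p := by
  obtain ⟨hq0, hth0, hth1, hrel, hsum, hpq⟩ := ps_rel hp hQ
  obtain ⟨hφT, hφ1, hφe⟩ := hφ
  have hp0 : 0 < p := by linarith
  have hφc := hφT.1.continuous
  have hψc := hψ.1.continuous
  have hgφ : Continuous (hg φ) := ((hHGC n φ).2.1 hφT.1).continuous
  have hgφc : HasCompactSupport (hg φ) := (hHGC n φ).2.2.2 hφT.2
  have hgψ : Continuous (hg ψ) := ((hHGC n ψ).2.1 hψ.1).continuous
  have hgψc : HasCompactSupport (hg ψ) := (hHGC n ψ).2.2.2 hψ.2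
  obtain ⟨hg1, hg2⟩ := grads hHGA hφT hψ
  have c1 : Continuous (fun z => ψ z • hg φ z) := hψc.smul hgφ
  have c1' : HasCompactSupport (fun z => ψ z • hg φ z) :=
    HasCompactSupport.smul_left (f := ψ) hgφc
  have c2 : Continuous (fun z => (1 - ψ z) • hg φ z) := (continuous_const.sub hψc).smul hgφ
  have c2' : HasCompactSupport (fun z => (1 - ψ z) • hg φ z) :=
    HasCompactSupport.smul_left (f := fun z => 1 - ψ z) hgφc
  have c3 : Continuous (fun z => φ z • hg ψ z) := hφc.smul hgψ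
  have c3' : HasCompactSupport (fun z => φ z • hg ψ z) :=
    HasCompactSupport.smul_left (f := φ) hgψc
  have c4 : Continuous (fun z => (-1 : ℝ) • (φ z • hg ψ z)) :=
    (continuous_const (y := (-1 : ℝ))).smul c3
  have c4' : HasCompactSupport (fun z => (-1 : ℝ) • (φ z • hg ψ z)) :=
    HasCompactSupport.smul_left (f := fun _ => (-1 : ℝ)) c3'
  refine ⟨en p (fun z => ψ z • hg φ z) ^ p⁻¹, en p (fun z => (1 - ψ z) • hg φ z) ^ p⁻¹,
    en p (fun z => φ z • hg ψ z) ^ p⁻¹, Real.rpow_nonneg (en_nonneg _ _) _,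
    Real.rpow_nonneg (en_nonneg _ _) _, Real.rpow_nonneg (en_nonneg _ _) _, ?_, ?_, ?_⟩
  · rw [Real.rpow_inv_rpow (en_nonneg _ _) hp0.ne', Real.rpow_inv_rpow (en_nonneg _ _) hp0.ne']
    exact (two_energies hψc h01 hgφ hgφc hp).trans hφe
  · have hmB : MeasurableSet {z : H n | 2 ^ i < N z ∧ N z < 2 ^ (i + 1)} :=
      ((isOpen_lt continuous_const continuous_N).inter
        (isOpen_lt continuous_N continuous_const)).measurableSet
    exact err_le hp hQ hφc hφT.2 hgψ hgψc hmB m hg0 hK hmass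
  · have hTQ1 := (hTQ n hn p S hp hQ hS).1 (fun z => ψ z * φ z) (tst_mul hψ.1 hφT)
    have hTQ2 := (hTQ n hn p S hp hQ hS).1 (fun z => (1 - ψ z) * φ z)
      (tst_mul (contDiff_const.sub hψ.1) hφT)
    rw [hg1] at hTQ1
    rw [hg2] at hTQ2
    have g1 := mink_pow c1 c1' c3 c3' hp
    have g2 := mink_pow c2 c2' c4 c4' hp
    rw [en_neg] at g2
    have a1 := mass_le hq0 hψ.1 hφT (A := {z : H n | N z ≤ 2 ^ i})
      (isClosed_le continuous_N continuous_const).measurableSet (fun z hz => h1 z hz)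
    have a2 := mass_le hq0 (u := fun z => 1 - ψ z) (contDiff_const.sub hψ.1) hφT
      (A := {z : H n | 2 ^ (i + 1) ≤ N z})
      (isClosed_le continuous_const continuous_N).measurableSet
      (fun z hz => by rw [h0 z hz, sub_zero])
    have n1 : 0 ≤ ∫ z in {z : H n | N z ≤ 2 ^ i}, |φ z| ^ ps n p :=
      integral_nonneg fun _ => Real.rpow_nonneg (abs_nonneg _) _
    have n2 : 0 ≤ ∫ z in {z : H n | 2 ^ (i + 1) ≤ N z}, |φ z| ^ ps n p :=
      integral_nonneg fun _ => Real.rpow_nonneg (abs_nonneg _) _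
    have b1 := mul_le_mul_of_nonneg_left (Real.rpow_le_rpow n1 a1 hth0.le) hS.1.le
    have b2 := mul_le_mul_of_nonneg_left (Real.rpow_le_rpow n2 a2 hth0.le) hS.1.le
    rw [mul_add]
    exact add_le_add ((b1.trans hTQ1).trans g1) ((b2.trans hTQ2).trans g2)

theorem pf_SPL (hCHI : T_CHI) (hOPT : T_OPT) (hTQ : T_TQ) (hHGA : T_HGA) (hHGC : T_HGC)
    (hACV : T_ACV) : T_SPL := by
  intro n hn a b η ha hab hb hη
  obtain ⟨χ, hχ, h01, hχ1, hχ0⟩ := hCHI n
  obtain ⟨L, M, hL, hLM⟩ := hOPT n hn a b ha hab hb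
  have hQ0 : (0 : ℝ) < 2 * (n : ℝ) + 2 := by positivity
  set K : ℝ := ∫ z, ‖hg χ z‖ ^ (2 * (n : ℝ) + 2) with hK
  have hK0 : 0 ≤ K := integral_nonneg fun _ => Real.rpow_nonneg (norm_nonneg _) _
  set c : ℝ := η * (2 ^ (a / (2 * (n : ℝ) + 2)) - 1) with hc
  have hc0 : 0 < c := by
    rw [hc]
    have : (1 : ℝ) < 2 ^ (a / (2 * (n : ℝ) + 2)) :=
      Real.one_lt_rpow (by norm_num) (by positivity)
    exact mul_pos hη (by linarith)
  have hM0 : 0 ≤ M := by
    obtain ⟨⟨S, hS⟩, h2⟩ := hLM a le_rfl hab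
    have := h2 S hS
    linarith [this.1, this.2]
  set C : ℝ := 2 * b * (M + 2) ^ b with hC
  have hC0 : 0 < C := by
    rw [hC]
    have : 0 < (M + 2) ^ b := Real.rpow_pos_of_pos (by linarith) b
    have hb0 : 0 < b := by linarith
    positivity
  obtain ⟨hqb0, _, _, _, _, _⟩ := ps_rel (n := n) (p := b) (by linarith) hb
  set K1 : ℝ := max 1 K with hK1
  have hK10 : 0 < K1 := lt_of_lt_of_le one_pos (le_max_left _ _)
  -- the choice of `m`
  have ht1 : Tendsto (fun m : ℕ => (1 : ℝ) / m) atTop (𝓝 0) := tendsto_one_div_atTop_nhds_zero_nat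
  have ht2 : Tendsto (fun m : ℕ => ((1 : ℝ) / m) ^ (ps n b)⁻¹ * K1) atTop (𝓝 0) := by
    have h := (ht1.rpow_const (p := (ps n b)⁻¹) (Or.inr (by positivity))).mul_const K1
    rw [Real.zero_rpow (by positivity), zero_mul] at h
    exact h
  have hpos : 0 < min 1 (L * c / (4 * C)) := lt_min one_pos (by positivity)
  obtain ⟨m, hm1, hm2, hm3⟩ := ((ht1.eventually (gt_mem_nhds (show (0 : ℝ) < c / 4 by
    positivity))).and ((ht2.eventually (gt_mem_nhds hpos)).and (eventually_ge_atTop 1))).exists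
  have hm0 : (0 : ℝ) < m := by exact_mod_cast hm3
  refine ⟨min 1 (L * c / 4), 2 ^ m, lt_min one_pos (by positivity),
    one_lt_pow₀ (by norm_num) (by omega), ?_⟩
  intro p S hap hpb hS φ hφ
  by_contra hcon
  rw [not_or, not_le, not_le] at hcon
  obtain ⟨hc1, hc2⟩ := hcon
  have hp : 1 < p := by linarith
  have hQ : p < 2 * n + 2 := by linarith
  obtain ⟨hq0, hth0, hth1, hrel, hsum, hpq⟩ := ps_rel hp hQ
  obtain ⟨hLS, hSM⟩ := (hLM p hap hpb).2 S hS
  have hφi : Integrable (fun z => |φ z| ^ ps n p) :=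
    (int_rpow hφ.1.1.continuous hφ.1.2 hq0).2.2
  have hφ0 : ∀ z, 0 ≤ |φ z| ^ ps n p := fun z => Real.rpow_nonneg (abs_nonneg _) _
  obtain ⟨i, him, hmass⟩ := pigeon hφi hφ0 hφ.2.1 m hm3
  obtain ⟨ψ, hψ, k01, k1, k0, kg, kK⟩ := cut_props hn hACV hχ h01 hχ1 hχ0 i
  obtain ⟨x, y, D, hx0, hy0, hD0, hxy, hD, hmain⟩ := main_ineq hn hTQ hHGA hHGC hp hQ hS hφ hψ k01
    i m k1 k0 kg kK hmass
  have hsplit := split_mass hφi i
  have htot : ∫ z, |φ z| ^ ps n p = 1 := hφ.2.1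
  rw [htot] at hsplit
  set m1 : ℝ := ∫ z in {z : H n | N z ≤ 2 ^ i}, |φ z| ^ ps n p with hm1'
  set m2 : ℝ := ∫ z in {z : H n | 2 ^ (i + 1) ≤ N z}, |φ z| ^ ps n p with hm2'
  set mb : ℝ := ∫ z in {z : H n | 2 ^ i < N z ∧ N z < 2 ^ (i + 1)}, |φ z| ^ ps n p with hmb
  have hmb0 : 0 ≤ mb := integral_nonneg fun z => hφ0 z
  have q1 : η < m1 := by
    refine hc1.trans_le (setIntegral_mono_set hφi.integrableOn (Eventually.of_forall hφ0) ?_)
    refine Eventually.of_forall fun z hz => ?_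
    exact le_trans hz (one_le_pow₀ (by norm_num))
  have q2 : η < m2 := by
    refine hc2.trans_le (setIntegral_mono_set hφi.integrableOn (Eventually.of_forall hφ0) ?_)
    refine Eventually.of_forall fun z hz => ?_
    have h5 : (2 : ℝ) ^ (i + 1) ≤ 2 ^ m := pow_le_pow_right₀ (by norm_num) him
    exact h5.trans (le_of_lt hz)
  have htwo := two_masses hη q1 q2 (by linarith) hsum (by positivity)
  have hck : c ≤ η * (2 ^ (p / (2 * (n : ℝ) + 2)) - 1) := by
    rw [hc]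
    refine mul_le_mul_of_nonneg_left (sub_le_sub_right ?_ 1) hη.le
    exact Real.rpow_le_rpow_of_exponent_le (by norm_num) (by gcongr)
  -- the bound for `D`
  have hDm : D ≤ ((1 : ℝ) / m) ^ (ps n b)⁻¹ * K1 := by
    refine hD.trans (mul_le_mul ?_ ?_ (Real.rpow_nonneg hK0 _) (Real.rpow_nonneg (by positivity) _))
    · refine Real.rpow_le_rpow_of_exponent_ge (by positivity) ?_ ?_
      · rw [div_le_one hm0]
        exact_mod_cast hm3
      · exact inv_anti₀ hq0 (ps_mono hpb hb)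
    · rcases le_total K 1 with h | h
      · refine (Real.rpow_le_one hK0 h (by positivity)).trans (le_max_left _ _)
      · refine le_trans ?_ (le_max_right _ _)
        conv_rhs => rw [← Real.rpow_one K]
        refine Real.rpow_le_rpow_of_exponent_le h ?_
        rw [inv_le_one₀ hQ0]
        have : (0 : ℝ) ≤ n := Nat.cast_nonneg n
        linarith
  have hD1 : D ≤ 1 := (hDm.trans hm2.le).trans (min_le_left _ _)
  have hD2 : C * D ≤ L * c / 4 := by
    have h5 : D ≤ L * c / (4 * C) := (hDm.trans hm2.le).trans (min_le_right _ _)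
    rw [le_div_iff₀ (by positivity)] at h5
    linarith
  have hε1 : min 1 (L * c / 4) ≤ 1 := min_le_left _ _
  have hε2 : min 1 (L * c / 4) ≤ L * c / 4 := min_le_right _ _
  have hone : ∀ w : ℝ, 0 ≤ w → w ^ p ≤ M + 1 → w ≤ M + 1 := by
    intro w hw0 hw
    rcases le_total w 1 with h | h
    · linarith
    · refine le_trans ?_ hw
      conv_lhs => rw [← Real.rpow_one w]
      exact Real.rpow_le_rpow_of_exponent_le h hp.le
  have hxp0 : 0 ≤ x ^ p := Real.rpow_nonneg hx0 p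
  have hyp0 : 0 ≤ y ^ p := Real.rpow_nonneg hy0 p
  have hxM : x ≤ M + 1 := hone x hx0 (by linarith)
  have hyM : y ≤ M + 1 := hone y hy0 (by linarith)
  have hst : ∀ w : ℝ, 0 ≤ w → w ≤ M + 1 → (w + D) ^ p ≤ w ^ p + b * (M + 2) ^ b * D := by
    intro w hw0 hw
    refine (add_rpow_le hw0 hD0 hp.le).trans ?_
    have h5 : (w + D) ^ (p - 1) ≤ (M + 2) ^ b := by
      refine (Real.rpow_le_rpow (by linarith) (by linarith : w + D ≤ M + 2) (by linarith)).trans ?_
      exact Real.rpow_le_rpow_of_exponent_le (by linarith) (by linarith)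
    have h6 : 0 ≤ (w + D) ^ (p - 1) := Real.rpow_nonneg (by linarith) _
    have h7 : p * D * (w + D) ^ (p - 1) ≤ b * D * (M + 2) ^ b :=
      mul_le_mul (mul_le_mul_of_nonneg_right hpb hD0) h5 h6 (by
        have : 0 ≤ b := by linarith
        positivity)
    linarith
  have hX := hst x hx0 hxM
  have hY := hst y hy0 hyM
  have hfin : S * (m1 ^ th n p + m2 ^ th n p) ≤ S + L * c / 4 + L * c / 4 := by
    have : C * D = 2 * (b * (M + 2) ^ b * D) := by rw [hC]; ring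
    linarith
  have hlow : S * (1 - 1 / m + c) ≤ S * (m1 ^ th n p + m2 ^ th n p) := by
    refine mul_le_mul_of_nonneg_left ?_ hS.1.le
    linarith
  have h10 : S * (3 * c / 4) ≤ S * (c - 1 / m) := by
    refine mul_le_mul_of_nonneg_left ?_ hS.1.le
    linarith
  have h11 : L * (3 * c / 4) ≤ S * (3 * c / 4) := mul_le_mul_of_nonneg_right hLS (by positivity)
  have h12 : 0 < L * c := by positivity
  nlinarith

end Pool.Agent.H80.HB
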